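import Pool.Agent.Work.MP_ca14f8_co.Blow
import Pool.Agent.Work.MP_ca14f8_co.Sum

/-!
The inequality of Morales, Pak and Panova for direct sums of Grassmannian and inverse
Grassmannian permutations.
-/

set_option autoImplicit false
open Classical

namespace Pool.Agent.Work.MP_ca14f8_co.Old.OneDescentSums

/-- The class of permutations of `{0, …, n - 1}` generated from the permutations with at most one
descent by taking inverses and products `u * v`, where for some `c` the permutation `u` moves only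
points `< c` and `v` moves only points `≥ c` (that is, direct sums). -/
inductive Cls {n : ℕ} : Equiv.Perm (Fin n) → Prop
  | one_descent (w : Equiv.Perm (Fin n)) (m : ℕ)
      (h : ∀ i j : Fin n, i < j → w j < w i → i.val < m ∧ m ≤ j.val) : Cls w
  | inverse (w : Equiv.Perm (Fin n)) (h : Cls w) : Cls w⁻¹
  | sum (c : ℕ) (u v : Equiv.Perm (Fin n)) (hu : ∀ i : Fin n, c ≤ i.val → u i = i)
      (hv : ∀ i : Fin n, i.val < c → v i = i) (hu' : Cls u) (hv' : Cls v) : Cls (u * v)

open Pool.Agent.Work.MP_ca14f8_co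

theorem Ups_Gr {n m : ℕ} {w : Equiv.Perm (Fin n)} (hw : Gr m w) : Ups w = V m w := by
  unfold Ups
  rw [N_Gr m _ w hw rfl]
  have : ((inv w).card.factorial : ℚ) ≠ 0 := by positivity
  field_simp

theorem Bl_inv {n : ℕ} (k : ℕ) (w : Equiv.Perm (Fin n)) : Bl k w⁻¹ = (Bl k w)⁻¹ := by
  rw [eq_inv_iff_mul_eq_one]
  ext x
  obtain ⟨⟨i, s⟩, rfl⟩ := finProdFinEquiv.surjective x
  rw [Equiv.Perm.mul_apply, Bl_apply, Bl_apply]
  simp

theorem Bl_mul {n : ℕ} (k : ℕ) (u v : Equiv.Perm (Fin n)) : Bl k (u * v) = Bl k u * Bl k v := by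
  ext x
  obtain ⟨⟨i, s⟩, rfl⟩ := finProdFinEquiv.surjective x
  rw [Equiv.Perm.mul_apply, Bl_apply, Bl_apply, Bl_apply]
  simp

theorem main {n : ℕ} (k : ℕ) {w : Equiv.Perm (Fin n)} (hw : Cls w) :
    Ups w ^ (k ^ 2) ≤ Ups (Bl k w) := by
  induction hw with
  | one_descent w m h =>
    have h1 : Gr m w := h
    rw [Ups_Gr h1, Ups_Gr (Gr_Bl k h1)]
    exact V_Bl_ge k h1
  | inverse w _ ih =>
    rw [Bl_inv, Ups_inverse, Ups_inverse]
    exact ih
  | sum c u v hu hv _ _ ihu ihv =>
    have h1 : Lo c u := hu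
    have h2 : Hi c v := hv
    have h3 : Lo (c * k) (Bl k u) := by
      intro x hx
      obtain ⟨⟨i, s⟩, rfl⟩ := finProdFinEquiv.surjective x
      rw [Bl_apply, hu i]
      by_contra h
      exact absurd ((val_lt_iff i s).mpr (not_le.mp h)) (not_lt.mpr hx)
    have h4 : Hi (c * k) (Bl k v) := by
      intro x hx
      obtain ⟨⟨i, s⟩, rfl⟩ := finProdFinEquiv.surjective x
      rw [Bl_apply, hv i]
      exact (val_lt_iff i s).mp hx
    rw [Bl_mul, Ups_mul _ u v h1 h2 rfl, Ups_mul _ (Bl k u) (Bl k v) h3 h4 rfl, mul_pow]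
    exact mul_le_mul ihu ihv (pow_nonneg (Ups_nonneg _) _) (Ups_nonneg _)

/-- Let `Υ` be the principal evaluation of Schubert polynomials (by Macdonald's formula, as in the
frozen statement). For every `k ≥ 2` and every permutation `w` in the class `Cls`, in particular
for every Grassmannian and every inverse Grassmannian permutation and for all direct sums of these,
`Υ (w ⊗ 1^k) ≥ Υ w ^ (k ^ 2)`. -/
theorem result :
  ∀ Υ : (n : ℕ) → Equiv.Perm (Fin n) → ℚ,
    (∀ (n : ℕ) (w : Equiv.Perm (Fin n)),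
      Υ n w =
        (∑ a ∈ (Finset.univ :
              Finset (Fin ((Finset.univ : Finset (Fin n × Fin n)).filter
                  (fun p => p.1 < p.2 ∧ w p.2 < w p.1)).card → Fin n × Fin n)).filter
            (fun a => (∀ i, (a i).2.val = (a i).1.val + 1) ∧
              (List.ofFn (fun i => Equiv.swap (a i).1 (a i).2)).prod = w),
          ∏ i, (((a i).1.val : ℚ) + 1)) /
        (((Finset.univ : Finset (Fin n × Fin n)).filter
            (fun p => p.1 < p.2 ∧ w p.2 < w p.1)).card.factorial : ℚ)) →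
    ∀ (n k : ℕ), 2 ≤ k → ∀ w : Equiv.Perm (Fin n), Cls w →
      Υ (n * k) (Equiv.permCongr finProdFinEquiv
          (Equiv.prodCongr w (Equiv.refl (Fin k)))) ≥ Υ n w ^ (k ^ 2) := by
  intro Υ hΥ n k _ w hw
  have h1 : ∀ (n : ℕ) (w : Equiv.Perm (Fin n)), Υ n w = Ups w := fun n w => hΥ n w
  rw [h1, h1]
  exact main k hw

end Pool.Agent.Work.MP_ca14f8_co.Old.OneDescentSums
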